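import Pool.Agent.Run7.h846.MainS
import Pool.Agent.Run7.h846.MainO
import Pool.Agent.Run7.h846.SecObs
import Pool.Agent.Run7.h846.DesM

/-!
# Finite descent and Brauer-Manin sets of the members of a family of superelliptic curves

Let `K` be a number field, `R` a finitely generated `K`-algebra which is a domain, with fraction field
`F`, and `s` the coordinate of the affine line over `Spec R`. Let `q` be a prime number, `h ∈ R[s]`
nonzero and `f ∈ R[s][x]` monic in `x` of degree `n ≥ 3` divisible by `q`; we consider the family of
curves `X_b : h(b) y^q = f(b, x)`, where `b` is a point of the affine line over `Spec R` with values in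
a number field `L` containing `K`. We suppose that `f` is a product of factors `x - θ_i(s)` with
`θ_i ∈ F̄[s]` (they may be permuted by the Galois group of `F`), and that for some `c ∈ R` the order
of `h` at `s = c` is prime to `q` and `f(c, x)` is separable.

Let `X : t y^q = g(x)` be a member over the number field `L`, `t ≠ 0`, `g` separable, and let
`A = L[T]/(g)`. For a unit `u` of `A` with `N(u) = t c^q`, `c ∈ L^*`, consider the curve

  `Y_u : x - w T = u z^q` in `A`, `(x : w)` in the projective line, `z ∈ A`,

with the map `(x : w; z) ↦ (x : w), y = c N(z)` to `X`. It is an étale covering of `X`, Galois with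
an abelian group of exponent `q` over the algebraic closure (the kernel of the norm from `(μ_q)^n` to
`μ_q` modulo the diagonal `μ_q`), and the `Y_u` are twists of each other. So if no `Y_u` has points over
all completions of `L` at the finite places (`¬ Survives`), then finite descent with abelian coverings
shows that `X` has no `L`-rational point, and the Brauer-Manin set `X(𝔸_L)^Br` is empty: by
Skorobogatov and Stoll every adelic point orthogonal to `Br(X)` lifts to some twist `Y_u`.

**Theorem.** (I) The following are equivalent.
(1) `f` has a root in `F[s]`.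
(2) There is a nonempty open subset of the base such that for all number fields `L` containing `K` all
members `X_b` over the `L`-points `b` of this open subset have `L`-rational points.
(3) The same, where it is only required that some covering `Y_u` of `X_b` has points over all the
completions of `L` at finite places.
(II) Let `4 ∣ n` if `q = 2`. The following are equivalent.
(1) `f` has a monic factor in `F[s][x]` of degree prime to `q`.
(2) There is a nonempty open subset of the base such that all members `X_b`, `b` an `L`-point of the open
subset, have a point over some extension `L'` of `L` of degree prime to `q`.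
(3) The same, where it is only required that over some extension `L'` of `L` of degree prime to `q` some
covering `Y_u` (`u` a unit of `L'[T]/(g)`) has points over all completions of `L'` at finite places.

So if `f` has no root in `F[s]` (no factor of degree prime to `q`), then there is a Zariski dense set of
points `b` for which `X_b` has no `L`-rational points (over ALL extensions `L'` of `L` of degree prime to
`q`) and the Brauer-Manin obstruction explains this: the Brauer-Manin sets over `L` (over all these
`L'`) are empty, so that Stoll's conjecture holds for `X_b` over `L` (over all these `L'`). Nothing is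
assumed on the Tate-Shafarevich groups and ranks of the Jacobians. The polynomial `f` may have roots
modulo all primes, and the conclusion is then not a local one.

Proof of (3) ⟹ (1). If `f` has no root in `F[s]`, one specialises `R` to a number field `L₀` so that
this is still true, and constructs a finite extension `L` of `L₀` and a point `s₀ ∈ L`, close to `c` at
exactly one place, such that the norm of `s₀` is a prime number `p` and at finitely many auxiliary
primes everything is totally ramified. Suppose that `Y_u` has points over all completions. The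
components `u_i` of `u` in the splitting field have at the good places the valuations of a point; their
norms to the splitting field `M` of `f` lie in finitely many classes, and by the choice of the auxiliary
primes they are powers of `p` up to `q`-th powers. So the root which is distinguished by the valuations
above `p` is fixed by the Galois group (files Core2, Nf3, MainS; Core3, NfO, OExt, MainO for (II); the
local analysis for the coverings is in Cpl, Des).
-/

set_option autoImplicit false

open Polynomial NumberField IsDedekindDomain

namespace Pool.Agent.Results.MP_308fa9_nt.DescentInFamilies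

/-- The smooth projective curve `t y ^ q = g(x)`, where `t ≠ 0` and `g` is monic and separable of degree
divisible by `q`, has a point over `k`: an affine point, or a point at infinity (`t` is a `q`-th
power). -/
def HasPoint (q : ℕ) {k : Type} [Field k] (t : k) (g : k[X]) : Prop :=
  (∃ x y : k, t * y ^ q = g.eval x) ∨ ∃ r : k, t * r ^ q = 1

/-- The covering `Y_u : x - w T = u(T) z(T) ^ q` modulo `g(T)` has a point `(x : w; z)` over the field
`k`: the equality holds in `k[T]/(g)`. -/
def CoverPoint (q : ℕ) (k : Type) [Field k] (g u : k[X]) : Prop :=
  ∃ (x w : k) (z r : k[X]), ¬ (x = 0 ∧ w = 0) ∧ C x - C w * X = u * z ^ q + g * r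

/-- Finite descent with the coverings `Y_u` does not exclude the points of the curve `t y ^ q = g(x)`
over the number field `L`: there is a `u` with norm `t c ^ q` (the resultant of the monic polynomial `g`
and `u` is the norm of the class of `u` in `L[T]/(g)`) such that `Y_u` has points over the
completions of `L` at all finite places. -/
def Survives (q : ℕ) (L : Type) [Field L] [NumberField L] (t : L) (g : L[X]) : Prop :=
  ∃ (u : L[X]) (c : L), c ≠ 0 ∧ resultant g u = t * c ^ q ∧
    ∀ v : HeightOneSpectrum (𝓞 L), CoverPoint q (v.adicCompletion L)
      (g.map (algebraMap L (v.adicCompletion L))) (u.map (algebraMap L (v.adicCompletion L)))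

/-- The property `P` holds for `(L', t, g)` for some finite extension `L'` of `L` of degree prime
to `q`. -/
def OverPrime (q : ℕ) (P : ∀ (L : Type) [Field L] [NumberField L], L → L[X] → Prop) (L : Type)
    [Field L] [NumberField L] (t : L) (g : L[X]) : Prop :=
  ∃ (L' : Type) (_ : Field L') (_ : NumberField L') (_ : Algebra L L'),
    ¬ q ∣ Module.finrank L L' ∧ P L' (algebraMap L L' t) (g.map (algebraMap L L'))

/-- The property `P` holds for the fibres `h(b) y ^ q = f(b, x)` over all points `b = (φ, s)` of the
affine line over `Spec R`, with values in number fields `L` containing `K`, with `z(b) ≠ 0`. -/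
def AllFibres (K R : Type) [Field K] [CommRing R] [Algebra K R] (h : R[X]) (f : R[X][X]) (z : R[X])
    (P : ∀ (L : Type) [Field L] [NumberField L], L → L[X] → Prop) : Prop :=
  ∀ (L : Type) [Field L] [NumberField L] [Algebra K L] (φ : R →ₐ[K] L) (s : L),
    z.eval₂ (φ : R →+* L) s ≠ 0 →
      P L (h.eval₂ (φ : R →+* L) s) (f.map (eval₂RingHom (φ : R →+* L) s))

/-- a member with a root has a surviving covering -/
lemma survives_of_root (q : ℕ) (hq : q ≠ 0) (L : Type) [Field L] [NumberField L] (t : L) (ht : t ≠ 0)
    (g : L[X]) (hg : g.Monic) (hsep : g.Separable) (x₀ : L) (hx : g.eval x₀ = 0) :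
    Survives q L t g := by
  obtain ⟨u, Z, Q, h1, h2⟩ := Run7.h846.cover_of_root q hq t ht g hg x₀ hx
    (hsep.eval₂_derivative_ne_zero (RingHom.id L) (by rw [eval₂_id]; exact hx))
  refine ⟨u, 1, one_ne_zero, by rw [h1, one_pow, mul_one], fun v => ?_⟩
  refine ⟨algebraMap L _ x₀, algebraMap L _ 1, Z.map (algebraMap L (v.adicCompletion L)),
    Q.map (algebraMap L (v.adicCompletion L)), ?_, ?_⟩
  · rintro ⟨-, h3⟩
    rw [map_one] at h3
    exact one_ne_zero h3
  · have h3 := congrArg (Polynomial.map (algebraMap L (v.adicCompletion L))) h2
    rw [Polynomial.map_sub, Polynomial.map_mul, map_C, map_C, map_X, Polynomial.map_add,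
      Polynomial.map_mul, Polynomial.map_mul, Polynomial.map_pow] at h3
    exact h3

/-- **Descent in families of superelliptic curves.** Suppose that `f` is monic of degree `n ≥ 3`
divisible by the prime `q` and splits into factors `x - θ_i(s)` with `θ_i` in `F̄[s]`, `F` the fraction
field of `R`, and that for some `c ∈ R` the order of `h` at `s = c` is prime to `q` and `f(c, x)` is
separable over `F`. Then the following are equivalent: `f` has a root in `F[s]`; over some nonempty open
subset `z ≠ 0` of the affine line over `Spec R` all fibres over points with values in number fields `L`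
have `L`-rational points; over some nonempty open subset all these fibres have a surviving
covering. If `4 ∣ n` in the case `q = 2`, then the following are equivalent: `f` has a monic factor in
`F[s][x]` of degree prime to `q`; over some nonempty open subset all fibres have points over extensions
of degree prime to `q`; over some nonempty open subset all fibres have a surviving covering over an
extension of degree prime to `q`. -/
theorem result (K : Type) [Field K] [NumberField K] (R : Type) [CommRing R] [IsDomain R]
    [Algebra K R] [Algebra.FiniteType K R] (q : ℕ) (hq : q.Prime) (h : R[X]) (f : R[X][X])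
    (hf : f.Monic) (hn : 3 ≤ f.natDegree) (hqn : q ∣ f.natDegree)
    (hsplit : (f.map (mapRingHom (algebraMap R (AlgebraicClosure (FractionRing R))))).Splits)
    (c : R) (hh : h ≠ 0) (hc : ¬ q ∣ h.rootMultiplicity c)
    (hsep : ((f.map (evalRingHom c)).map (algebraMap R (FractionRing R))).Separable) :
    List.TFAE [
      ∃ θ : (FractionRing R)[X], (f.map (mapRingHom (algebraMap R (FractionRing R)))).eval θ = 0,
      ∃ z : R[X], z ≠ 0 ∧ AllFibres K R h f z fun _ _ _ t g => HasPoint q t g,
      ∃ z : R[X], z ≠ 0 ∧ AllFibres K R h f z fun L _ _ t g => Survives q L t g] ∧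
    ((q = 2 → 4 ∣ f.natDegree) → List.TFAE [
      ∃ P : (FractionRing R)[X][X], P.Monic ∧
        P ∣ f.map (mapRingHom (algebraMap R (FractionRing R))) ∧ ¬ q ∣ P.natDegree,
      ∃ z : R[X], z ≠ 0 ∧ AllFibres K R h f z
        (OverPrime q fun _ _ _ t g => HasPoint q t g),
      ∃ z : R[X], z ≠ 0 ∧ AllFibres K R h f z
        (OverPrime q fun L _ _ t g => Survives q L t g)]) := by
  have hch : CharZero R := by
    have : CharZero K := inferInstance
    exact charZero_of_injective_algebraMap (algebraMap K R).injective
  obtain ⟨z₂, hz₂, hz₂'⟩ := Run7.h846.sep_fibre R (FractionRing R) f hf (by omega) c hsep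
  constructor
  · tfae_have 1 → 2 := by
      rintro ⟨θ, hθ⟩
      obtain ⟨b, hb, H⟩ := Run7.h846.root_fibre R (FractionRing R) f θ hθ
      refine ⟨C b, by rw [Ne, C_eq_zero]; exact hb, fun L _ _ _ φ s hs => ?_⟩
      rw [eval₂_C] at hs
      obtain ⟨x₀, hx₀⟩ := H L (φ : R →+* L) s hs
      exact Or.inl ⟨x₀, 0, by rw [hx₀, zero_pow hq.ne_zero, mul_zero]⟩
    tfae_have 1 → 3 := by
      rintro ⟨θ, hθ⟩
      obtain ⟨b, hb, H⟩ := Run7.h846.root_fibre R (FractionRing R) f θ hθ
      refine ⟨C b * z₂ * h, mul_ne_zero (mul_ne_zero (by rw [Ne, C_eq_zero]; exact hb) hz₂) hh,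
        fun L _ _ _ φ s hs => ?_⟩
      rw [eval₂_mul, eval₂_mul, eval₂_C] at hs
      obtain ⟨x₀, hx₀⟩ := H L (φ : R →+* L) s (left_ne_zero_of_mul (left_ne_zero_of_mul hs))
      exact survives_of_root q hq.ne_zero L _ (right_ne_zero_of_mul hs) _ (hf.map _)
        (hz₂' L (φ : R →+* L) s (right_ne_zero_of_mul (left_ne_zero_of_mul hs))) x₀ hx₀
    tfae_have 2 → 1 := by
      rintro ⟨z, hz, H⟩
      by_contra hno
      push Not at hno
      obtain ⟨L, _, _, _, _, φ, s, hzs, hobs⟩ := Run7.h846.mainS K R q hq h f hf hn hqn hsplit c hh
        hc hsep z hz hno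
      rcases H L φ s hzs with ⟨x, y, hxy⟩ | ⟨r, hr⟩
      · exact Run7.h846.obs_noPoint hq.ne_zero hobs x y hxy
      · exact hobs.1 r hr
    tfae_have 3 → 1 := by
      rintro ⟨z, hz, H⟩
      by_contra hno
      push Not at hno
      obtain ⟨L, _, _, _, _, φ, s, hzs, hobs⟩ := Run7.h846.mainS K R q hq h f hf hn hqn hsplit c hh
        hc hsep z hz hno
      obtain ⟨u, e, he, hres, hloc⟩ := H L φ s hzs
      exact Run7.h846.obs_noCover hq.ne_zero hobs u e he hres hloc
    tfae_finish
  · intro h4
    tfae_have 1 → 2 := by
      rintro ⟨P, hPm, hP, hPq⟩
      obtain ⟨b, hb, H⟩ := Run7.h846.factor_fibre q R (FractionRing R) f P hPm hP hPq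
      refine ⟨C b, by rw [Ne, C_eq_zero]; exact hb, fun L _ _ _ φ s hs => ?_⟩
      rw [eval₂_C] at hs
      obtain ⟨r, hr1, hr2, hr3⟩ := H L (φ : R →+* L) s hs
      obtain ⟨L', _, _, _, x₀, h1, h2⟩ := Run7.h846.root_ext q L _ r hr1 hr2 hr3
      exact ⟨L', inferInstance, inferInstance, inferInstance, h1,
        Or.inl ⟨x₀, 0, by rw [h2, zero_pow hq.ne_zero, mul_zero]⟩⟩
    tfae_have 1 → 3 := by
      rintro ⟨P, hPm, hP, hPq⟩
      obtain ⟨b, hb, H⟩ := Run7.h846.factor_fibre q R (FractionRing R) f P hPm hP hPq
      refine ⟨C b * z₂ * h, mul_ne_zero (mul_ne_zero (by rw [Ne, C_eq_zero]; exact hb) hz₂) hh,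
        fun L _ _ _ φ s hs => ?_⟩
      rw [eval₂_mul, eval₂_mul, eval₂_C] at hs
      obtain ⟨r, hr1, hr2, hr3⟩ := H L (φ : R →+* L) s
        (left_ne_zero_of_mul (left_ne_zero_of_mul hs))
      obtain ⟨L', _, _, _, x₀, h1, h2⟩ := Run7.h846.root_ext q L _ r hr1 hr2 hr3
      exact ⟨L', inferInstance, inferInstance, inferInstance, h1,
        survives_of_root q hq.ne_zero L' _ ((_root_.map_ne_zero _).2 (right_ne_zero_of_mul hs)) _
          ((hf.map _).map _) ((hz₂' L (φ : R →+* L) s
            (right_ne_zero_of_mul (left_ne_zero_of_mul hs))).map) x₀ h2⟩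
    tfae_have 2 → 1 := by
      rintro ⟨z, hz, H⟩
      by_contra hno
      push Not at hno
      obtain ⟨L, _, _, _, _, φ, s, hzs, hobs⟩ := Run7.h846.mainO K R q hq h f hf hn hqn h4 hsplit c
        hh hc hsep z hz hno
      obtain ⟨L', _, _, _, hL', hP⟩ := H L φ s hzs
      have hfd : FiniteDimensional L L' := FiniteDimensional.right ℚ L L'
      have hobs' := hobs L' hL'
      rcases hP with ⟨x, y, hxy⟩ | ⟨r, hr⟩
      · exact Run7.h846.obs_noPoint hq.ne_zero hobs' x y hxy
      · exact hobs'.1 r hr
    tfae_have 3 → 1 := by
      rintro ⟨z, hz, H⟩
      by_contra hno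
      push Not at hno
      obtain ⟨L, _, _, _, _, φ, s, hzs, hobs⟩ := Run7.h846.mainO K R q hq h f hf hn hqn h4 hsplit c
        hh hc hsep z hz hno
      obtain ⟨L', _, _, _, hL', u, e, he, hres, hloc⟩ := H L φ s hzs
      have hfd : FiniteDimensional L L' := FiniteDimensional.right ℚ L L'
      exact Run7.h846.obs_noCover hq.ne_zero (hobs L' hL') u e he hres hloc
    tfae_finish

end Pool.Agent.Results.MP_308fa9_nt.DescentInFamilies
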