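import Pool.Agent.Run7.h316.UN.Ors
import Pool.Agent.N18.KM.Zc
import Pool.Agent.N676.OR.Cnt
import Pool.Agent.Results.MP_308fa9_nt.EmptySetsOfTwistedCoverings

/-!
# Brauer-Manin sets of twists of cyclic coverings by sums of primes

Let `b y ^ 2 = ∏ k, G k (z, w)` be a hyperelliptic curve `D` over `ℚ`, where the `G k` are the homogenisations of
polynomials `g k` with integral coefficients, of even degrees, pairwise coprime. Let `h` be a polynomial with integral
coefficients, coprime to the `g k`, and `H` its homogenisation (`Admissible`). For an integer `a` and `m ≥ 2`,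
`m ∣ deg h`, consider the curve

  `C a : b y ^ 2 = ∏ k, G k (z, w)`, `a x ^ m = H (z, w)`,

a cyclic covering of degree `m` of `D`; for different `a` these coverings are twists of each other. The classes of the
quaternion algebras `(G k, e)`, `e` a nonzero integer, belong to the Brauer group of `C a`; an adelic point is orthogonal
if the sum of the local invariants of each of these classes is zero.

`Good b g h a`: every orthogonal adelic point of the curves `C a` (all `m`) has a persistent class (see the starting
file `EmptySetsOfTwistedCoverings`, helper925; 100% of the squarefree integers `a`). So if there are no persistent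
classes, the Brauer-Manin set of `C a` is empty and `C a` has no rational points: `C a` satisfies Stoll's conjecture.

The twisting parameter is the value `a = λ(c)` of a linear form at the vectors of a family. Let `c w`, `w ∈ Ω`, be a
family of integral vectors and `S M ⊂ Ω` finite sets; `Usually`: for ALL linear forms `λ` (in the given set) and ALL
admissible families `(b, g, h)` the proportion of the `w ∈ S M` for which `λ(c w)` is not good tends to zero, `M → ∞`.

**Theorem.** (A) For the linear forms `λ ≠ 0` the property `Usually` is spread-robust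
(`Pool.Agent.Run7.h316.UN.SpreadRobust`): all spread families have it (the proportion of the vectors in a given class
modulo `q` is at most `C q ^ (-r) + o(1)` for all `q` prime to some number), metric sequences, random orbits of Zariski
dense groups, generalised polynomials.

(B) PRIMES. For the linear forms `λ` with at least two nonzero coefficients the property `Usually` is unit-robust
(`Pool.Agent.Run7.h316.UN.UnitRobust`): it holds for the vectors of prime numbers `≤ M`, and for all families which are
spread over the vectors of units: the proportion of the vectors in a given class modulo `q` is at most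
`C φ(q) ^ (-r) + o(1)`, and almost no vectors have a coordinate which is not prime to `q`, for all `q` prime to some
number.

(C) If `a` is good and there are no persistent classes, the curves `C a` have no orthogonal adelic points. This is the
case for `D : y² = (z² + 51) (z² - 1)` and `h = (z² + 1) (z² - 17) (z² + 17)`: all the curves `C a`, `m ∈ {2, 3, 6}`,
have adelic points. So for almost all pairs of prime numbers `p`, `p'` up to `M` the curve `C a`, `a = p - p'`, has
points everywhere locally, and its Brauer-Manin set is empty.

Two coefficients are necessary in (B): a prime of a given Frobenius class never divides a single prime number `p` exactly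
once, if `p` is not itself in this class.

Proof. `Good` follows if a prime of each of finitely many Frobenius classes divides `a` exactly once (helper925,
helper676, helper18). The vectors of primes are not dominated by Haar measure: the local conditions are counted on the
vectors of units (`Pool.Agent.Run7.h316.UN.lin_count`), the set of the vectors which are not good is unit null
(`UnitNull`), and families which are spread over the vectors of units avoid unit null sets. Vectors of primes: the prime
number theorem for arithmetic progressions (helper923). Metric sequences: `Pool.Agent.N24.KM` (helpers 24, 344, 617, 199,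
764, 432, 286); random orbits: `Pool.Agent.N24.RW` (helpers 24, 123, 195, 300, 543, 765); generalised polynomials:
`Pool.Agent.N666.TM` (helper666); `Pool.Agent.N918.EQ` (helper918).
-/

set_option autoImplicit false

namespace Pool.Agent.Results.MP_308fa9_nt.PrimeTwists

open Polynomial Pool.Agent.R925.FD
open Pool.Agent.Run7.h316.UN (SpreadRobust UnitRobust TwoNonzero robust_of_hits)
open Pool.Agent.Results.MP_308fa9_nt.EmptySetsOfTwistedCoverings (Admissible HasClass)

/-- On the curves `C a`, `m ≥ 2`, `m ∣ deg h`, every orthogonal adelic point has a persistent class. -/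
def Good {r : ℕ} (b : ℤ) (g : Fin r → ℤ[X]) (h : ℤ[X]) (a : ℤ) : Prop :=
  ∀ m, 2 ≤ m → m ∣ h.natDegree → ∀ P : AdelicPoint m b a g h, Orthogonal P →
    ∃ n : Fin r → ℤ, HasClass P n ∧ Persistent 2 g h (fun k => (n k : ℚ))

/-- For all linear forms `λ` in `L` and all admissible families `(b, g, h)` the proportion of the `w` in `S M` for which
`λ(c w)` is not good tends to zero, `M → ∞`. -/
def Usually {ι : Type} [Fintype ι] (L : (ι → ℤ) → Prop) (Ω : Type) (S : ℕ → Finset Ω)
    (c : Ω → ι → ℤ) : Prop :=
  ∀ lam : ι → ℤ, L lam → ∀ (r : ℕ) (b : ℤ) (g : Fin r → ℤ[X]) (h : ℤ[X]), Admissible b g h →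
    ∀ ε : ℝ, 0 < ε → ∃ M₀ : ℕ, ∀ M : ℕ, M₀ ≤ M →
      (({w : Ω | w ∈ S M ∧ ¬ Good b g h (∑ i, lam i * c w i)}.ncard : ℕ) : ℝ) ≤ ε * (S M).card

/-- **The Brauer-Manin sets of twists of cyclic coverings by values of linear forms at vectors of primes, spread families,
metric sequences, random orbits and generalised polynomials.** -/
theorem result :
    (∀ (ι : Type) [Fintype ι] [DecidableEq ι] [Nonempty ι],
      SpreadRobust (Usually (ι := ι) fun lam => lam ≠ 0) ∧
      UnitRobust (Usually (ι := ι) TwoNonzero)) ∧
    (∀ (r : ℕ) (b : ℤ) (g : Fin r → ℤ[X]) (h : ℤ[X]) (a : ℤ), Good b g h a →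
      (∀ δ : Fin r → ℚ, IsClass 2 b δ → ¬ Persistent 2 g h δ) →
      ∀ m, 2 ≤ m → m ∣ h.natDegree → ∀ P : AdelicPoint m b a g h, ¬ Orthogonal P) ∧
    Admissible 1 exg exh ∧ (∀ δ, IsClass 2 1 δ → ¬ Persistent 2 exg exh δ) ∧
    ∀ (a : ℤ) (m : ℕ), m ≠ 0 → Nonempty (AdelicPoint m 1 a exg exh) := by
  classical
  refine ⟨fun ι _ _ _ => ?_, fun r b g h a hG hno m hm hmh P hP => ?_,
    EmptySetsOfTwistedCoverings.result.2.1, EmptySetsOfTwistedCoverings.result.2.2.1,
    EmptySetsOfTwistedCoverings.result.2.2.2.1⟩
  · have hcp := Pool.Agent.N676.OR.countable_poly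
    have key := robust_of_hits (ι := ι) (𝔇 := Σ r : ℕ, ℤ × (Fin r → ℤ[X]) × ℤ[X])
      (fun D a => Admissible D.2.1 D.2.2.1 D.2.2.2 → Good D.2.1 D.2.2.1 D.2.2.2 a) (by
      rintro ⟨r, b, g, h⟩
      by_cases hA : Admissible b g h
      · obtain ⟨PP, h1, h2, h3⟩ :=
          Pool.Agent.N18.KM.bm_once hA.b_ne hA.g_ne hA.h_ne hA.deg hA.coprime hA.coprime_h
        refine ⟨PP, h1, h2, fun a ha _ m hm hmh P hP => ?_⟩
        obtain ⟨n, hn1, hn2, hper, hn3, hn4⟩ := h3 a ha m hm hmh P hP
        exact ⟨n, ⟨hn1, hn2, hn3, hn4⟩, hper⟩
      · exact ⟨∅, Set.finite_empty, fun P hP => absurd hP (Set.notMem_empty _),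
          fun a _ hA' => absurd hA' hA⟩)
    have hconv : ∀ (L : (ι → ℤ) → Prop) (Ω : Type) (S : ℕ → Finset Ω) (c : Ω → ι → ℤ),
        (∀ lam : ι → ℤ, L lam → ∀ D : Σ r : ℕ, ℤ × (Fin r → ℤ[X]) × ℤ[X],
          Pool.Agent.Run7.h316.EQ.Rare S c {x | ¬ (Admissible D.2.1 D.2.2.1 D.2.2.2 →
            Good D.2.1 D.2.2.1 D.2.2.2 (∑ i, lam i * x i))}) → Usually L Ω S c := by
      intro L Ω S c hR lam hlam r b g h hA ε hε
      obtain ⟨M₀, h1⟩ := hR lam hlam ⟨r, b, g, h⟩ ε hε
      refine ⟨M₀, fun M hM => le_trans ?_ (h1 M hM)⟩
      refine Nat.cast_le.2 (Set.ncard_le_ncard ?_ ((S M).finite_toSet.subset fun w hw => hw.1))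
      rintro w ⟨hw1, hw2⟩
      exact ⟨hw1, fun hgood => hw2 (hgood hA)⟩
    exact ⟨key.1.imp (hconv _), key.2.imp (hconv _)⟩
  · obtain ⟨n, hn, hper⟩ := hG m hm hmh P hP
    exact hno _ hn.2.1 hper

end Pool.Agent.Results.MP_308fa9_nt.PrimeTwists
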