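import Pool.Agent.N546.ZT.FD
import Pool.Agent.Results.MP_308fa9_nt.EmptySetsOfTwistedCoverings
import Pool.Agent.Run7.h227.RV.Crit
import Pool.Agent.Run7.h823.WF.Ex

/-!
# Brauer-Manin sets of twists of cyclic coverings by products of the members of sparse families of vectors of residues:
# the first `m ^ ε` terms of linear recurrences modulo `m`

Let `b y ^ 2 = ∏ k, G k (z, w)` be a hyperelliptic curve `D` over `ℚ`, where the `G k` are the
homogenisations of polynomials `g k` with integral coefficients, of even degrees, pairwise coprime.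
Let `h` be a polynomial with integral coefficients, coprime to the `g k`, and `H` its homogenisation.
For a nonzero integer `a` and `m ≥ 2`, `m ∣ deg h`, consider the curve

  `C a : b y ^ 2 = ∏ k, G k (z, w)`, `a x ^ m = H (z, w)`,

a cyclic covering of degree `m` of `D`; for different `a` these coverings are twists of each other. The
classes of the quaternion algebras `(G k, e)`, `e` a nonzero integer, belong to the Brauer group of `C a`.
The starting files show that for almost all squarefree `a`, and for the products `a = u ∏ z_l(t) ^ e_l` of the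
values of sequences which are uniformly distributed modulo all `q` (integer parts of generalised polynomials; random orbits),
for almost all `t`, the adelic points of `C a` orthogonal to these classes have persistent classes; so if there are no
persistent classes, for example for `D : y² = (z² + 51) (z² - 1)` and `h = (z² + 1) (z² - 17) (z² + 17)`, there are no
orthogonal adelic points, although the curves can have points everywhere locally.

**Theorem.** Let `y_i`, `i ∈ t`, be an arbitrary family of vectors of `L` residues modulo an integer `q` whose Fourier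
coefficients at the nonzero frequencies are at most `q ^ (-β)` times their number, `q` large. For all but `ε |t|` of the
vectors `v = c₀ + y_i` (`y_i` represented by the least residues) this is true at the same time for ALL the products
`a = u ∏ v_l ^ e_l` with some `e_l = 1` and `0 < |u| ≤ B`.

The family can be very sparse: examples (of vectors with `r` coordinates) are

* the values `(u_1(n), …, u_r(n))`, `n < N`, of `r` linear recurrences modulo a prime `m` with linearly independent vectors
  of coefficients, as soon as `N ≥ m ^ ε` and the roots and their quotients have orders `≥ m ^ ε`;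
* the vectors `(x_1 b_1 ^ n, …, x_r b_r ^ n)`, `n < N`, `N ≥ m ^ ε`, for fixed different integers `b_j ≥ 2` and
  all `x_j ≠ 0`, modulo all but `C X ^ ε` of the primes `m ≤ X`.

In these examples only `m ^ ε` of the `m ^ r` vectors of the box occur.

From Mathlib: `ZMod.stdAddChar`: the additive character `j ↦ exp (2 π i j / q)` of the integers modulo `q`; `ZMod.val`: the
least residue.

Proof: the local analysis is that of the starting file `ThinSequencesOfCoverings`: the property needs one exact prime divisor
of `a` in each of finitely many sets of primes with divergent sums of reciprocals. Families with small Fourier coefficients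
are well distributed modulo all integers up to a power of `q`, so that Turan's sieve applies (`Pool.Agent.Run7.h823.WF`,
`Pool.Agent.Run7.h227.RV`); the Fourier coefficients of short recurrences are estimated by the method of Bourgain,
Glibichuk and Konyagin (`Pool.Agent.Run7.h823.BK`).
-/

set_option autoImplicit false

namespace Pool.Agent.Results.MP_308fa9_nt.ResidueVectors

open Polynomial Pool.Agent.R925.FD
open Pool.Agent.Results.MP_308fa9_nt.EmptySetsOfTwistedCoverings (Admissible HasClass)

/-- The Fourier coefficients of the vectors of residues `y i`, `i ∈ s`, modulo `q` at the nonzero frequencies are at most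
`η` times the number of the vectors: `|∑ i ∈ s, e(h·y_i / q)| ≤ η |s|` for all vectors `h ≠ 0` modulo `q`. -/
def Flat {τ ι : Type} [Fintype ι] (q : ℕ) [NeZero q] (η : ℝ) (s : Finset τ) (y : τ → ι → ZMod q) : Prop :=
  ∀ h : ι → ZMod q, h ≠ 0 → ‖∑ i ∈ s, (ZMod.stdAddChar (∑ j, h j * y i j) : ℂ)‖ ≤ η * s.card

/-- The integral vector `c₀ + y_i`, with the least residues `0 ≤ y_i < q`. -/
def vec {τ ι : Type} {q : ℕ} (y : τ → ι → ZMod q) (c₀ : ι → ℤ) (i : τ) (j : ι) : ℤ := c₀ j + ((y i j).val : ℕ)

/-- On the curves `C a` every orthogonal adelic point has a persistent class. -/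
def OnlyPersistent {K : Type} [Fintype K] [DecidableEq K] (b : ℤ) (g : K → ℤ[X]) (h : ℤ[X]) (a : ℤ) :
    Prop :=
  ∀ m, 2 ≤ m → m ∣ h.natDegree → ∀ P : AdelicPoint m b a g h, Orthogonal P →
    ∃ n : K → ℤ, HasClass P n ∧ Persistent 2 g h (fun k => (n k : ℚ))

/-- The curves `C a` have no orthogonal adelic points (and no rational points). -/
def EmptySet {K : Type} [Fintype K] [DecidableEq K] (b : ℤ) (g : K → ℤ[X]) (h : ℤ[X]) (a : ℤ) :
    Prop :=
  ∀ m, 2 ≤ m → m ∣ h.natDegree → ∀ P : AdelicPoint m b a g h, ¬ Orthogonal P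

/-- The property `P` holds for all but `ε |t|` of the members `v` of every family of vectors `c₀ + y_i`, `i ∈ t`, of length
`L` modulo a large `q` whose Fourier coefficients are at most `q ^ (-β)`, at the same time for all products
`u ∏ v_l ^ e_l` with some `e_l = 1` and `0 < |u| ≤ B`. -/
def ForAlmostAllVectors (P : ℤ → Prop) : Prop :=
  ∀ (L B : ℕ) (β ε : ℝ), 0 < β → 0 < ε → ∃ q₀ : ℕ, ∀ (q : ℕ) [NeZero q], q₀ ≤ q →
    ∀ (τ : Type) (t : Finset τ) (y : τ → Fin L → ZMod q), Flat q ((q : ℝ) ^ (-β)) t y → ∀ c₀ : Fin L → ℤ,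
      ({i : τ | i ∈ t ∧ ¬ ∀ (e : Fin L → ℕ) (u : ℤ), (∃ l, e l = 1) → u ≠ 0 → u.natAbs ≤ B →
        P (u * ∏ l, vec y c₀ i l ^ e l)}.ncard : ℝ) ≤ ε * t.card

lemma for_of_crit {P : ℤ → Prop} (hP : Pool.Agent.N546.ZT.Crit P) : ForAlmostAllVectors P := by
  intro L B β ε hβ hε
  obtain ⟨q₀, h⟩ := Pool.Agent.Run7.h227.RV.crit_residues (ι := Fin L) hP hβ B ε hε
  exact ⟨q₀, fun q _ hq τ t y hf c₀ => h τ q hq t y c₀ hf⟩

/-- **Theorem.** (1) For all data `b`, `g`, `h`: for almost all members of all families with small Fourier coefficients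
every orthogonal adelic point of `C a` has a persistent class, and there is no orthogonal adelic point if there is no
persistent class. (2) Examples: short linear recurrences. (3) Examples: the first powers of fixed integers, modulo all but
`C X ^ ε` of the primes `m ≤ X`. (4) An example of the data without persistent classes; all the curves `C a` have adelic points. -/
theorem result :
    (∀ (K : Type) [Fintype K] [DecidableEq K] (b : ℤ) (g : K → ℤ[X]) (h : ℤ[X]), Admissible b g h →
      ForAlmostAllVectors (OnlyPersistent b g h) ∧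
      ((∀ δ : K → ℚ, IsClass 2 b δ → ¬ Persistent 2 g h δ) → ForAlmostAllVectors (EmptySet b g h))) ∧
    (∀ (k : ℕ) (ε : ℝ), 0 < ε → ∃ β : ℝ, 0 < β ∧ ∃ m₀ : ℕ, ∀ (m : ℕ) [Fact m.Prime], m₀ ≤ m →
      ∀ (ι : Type) [Fintype ι] (c : ι → Fin k → ZMod m) (g : Fin k → (ZMod m)ˣ) (N : ℕ), LinearIndependent (ZMod m) c →
      (∀ i, (m : ℝ) ^ ε ≤ orderOf (g i)) → (∀ i j, i ≠ j → (m : ℝ) ^ ε ≤ orderOf (g i / g j)) → (m : ℝ) ^ ε ≤ N →
      Flat m ((m : ℝ) ^ (-β)) (Finset.range N) (fun n j => ∑ i, c j i * (g i : ZMod m) ^ n)) ∧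
    (∀ (ι : Type) [Fintype ι] (ε : ℝ), 0 < ε → ∃ β : ℝ, 0 < β ∧ ∀ b : ι → ℕ, (∀ j, 2 ≤ b j) → Function.Injective b →
      ∃ C : ℝ, ∀ X : ℕ, 1 ≤ X → ∀ Q : Finset ℕ,
      (∀ m ∈ Q, m ≤ X ∧ ∃ _ : Fact m.Prime, ¬ ∀ N : ℕ, (m : ℝ) ^ ε ≤ N → ∀ x : ι → ZMod m, (∀ j, x j ≠ 0) →
        Flat m ((m : ℝ) ^ (-β)) (Finset.range N) (fun n j => x j * (b j : ZMod m) ^ n)) →
      (Q.card : ℝ) ≤ C * (X : ℝ) ^ ε) ∧
    Admissible 1 exg exh ∧ (∀ δ, IsClass 2 1 δ → ¬ Persistent 2 exg exh δ) ∧
    ∀ (a : ℤ) (m : ℕ), m ≠ 0 → Nonempty (AdelicPoint m 1 a exg exh) := by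
  refine ⟨fun K _ _ b g h hA => ?_, fun k ε hε => Pool.Agent.Run7.h823.WF.flat_rec' k hε,
    fun ι _ ε hε => Pool.Agent.Run7.h823.WF.flat_pow' ι hε,
    EmptySetsOfTwistedCoverings.result.2.1, EmptySetsOfTwistedCoverings.result.2.2.1,
    EmptySetsOfTwistedCoverings.result.2.2.2.1⟩
  have hcrit : Pool.Agent.N546.ZT.Crit (Pool.Agent.N546.ZT.BMProp b g h) :=
    Pool.Agent.N546.ZT.bm_crit hA.b_ne hA.g_ne hA.h_ne hA.deg hA.coprime hA.coprime_h
  refine ⟨for_of_crit (hcrit.mono fun a hp m hm hmh P hP => ?_),
    fun hno => for_of_crit (hcrit.mono fun a hp m hm hmh P hP => ?_)⟩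
  · obtain ⟨n, h3, h4, h5, h6, h7⟩ := hp m hm hmh P hP
    exact ⟨n, ⟨h3, h4, h6, h7⟩, h5⟩
  · obtain ⟨n, h3, h4, h5, h6, h7⟩ := hp m hm hmh P hP
    exact hno _ h4 h5

end Pool.Agent.Results.MP_308fa9_nt.ResidueVectors
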